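import Pool.Agent.K1H59.ON.HpHt

/-! Piece CF of the project ON. -/

set_option autoImplicit false

namespace Pool.Agent.K1H59.ON

open Finset Pool.Agent.K1H73.ON

theorem deg_three {ω : Finset (Sym2 V)} (h : ∀ e ∈ ω, ∃ p q, e = s(p, q) ∧ Nbr p q)
    (v x y z : V) (hxy : x ≠ y) (hxz : x ≠ z) (hyz : y ≠ z)
    (hN : ∀ q, Nbr v q ∨ Nbr q v → q = x ∨ q = y ∨ q = z)
    [Decidable (s(v, x) ∈ ω)] [Decidable (s(v, y) ∈ ω)] [Decidable (s(v, z) ∈ ω)] :
    deg ω v = (if s(v, x) ∈ ω then 1 else 0) + ((if s(v, y) ∈ ω then 1 else 0) +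
      (if s(v, z) ∈ ω then 1 else 0)) := by
  classical
  have e1 : s(v, x) ≠ s(v, y) := fun h => hxy (Sym2.congr_right.mp h)
  have e2 : s(v, x) ≠ s(v, z) := fun h => hxz (Sym2.congr_right.mp h)
  have e3 : s(v, y) ≠ s(v, z) := fun h => hyz (Sym2.congr_right.mp h)
  have hset : ω.filter (fun e => v ∈ e) =
      ({s(v, x), s(v, y), s(v, z)} : Finset (Sym2 V)).filter (fun e => e ∈ ω) := by
    ext e
    rw [Finset.mem_filter, Finset.mem_filter, Finset.mem_insert, Finset.mem_insert,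
      Finset.mem_singleton]
    constructor
    · rintro ⟨he, hve⟩
      refine ⟨?_, he⟩
      obtain ⟨p, q, rfl, hpq⟩ := h e he
      rcases Sym2.mem_iff.mp hve with rfl | rfl
      · rcases hN q (Or.inl hpq) with rfl | rfl | rfl
        · exact Or.inl rfl
        · exact Or.inr (Or.inl rfl)
        · exact Or.inr (Or.inr rfl)
      · rcases hN p (Or.inr hpq) with rfl | rfl | rfl
        · exact Or.inl Sym2.eq_swap
        · exact Or.inr (Or.inl Sym2.eq_swap)
        · exact Or.inr (Or.inr Sym2.eq_swap)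
    · rintro ⟨h1, he⟩
      refine ⟨he, ?_⟩
      rcases h1 with rfl | rfl | rfl <;> exact Sym2.mem_mk_left _ _
  have h1 : deg ω v = (ω.filter (fun e => v ∈ e)).card := by
    unfold deg
    congr
  have m3 : s(v, y) ∉ ({s(v, z)} : Finset (Sym2 V)) := fun h => e3 (Finset.mem_singleton.mp h)
  have m2 : s(v, x) ∉ ({s(v, y), s(v, z)} : Finset (Sym2 V)) := fun h => by
    rcases Finset.mem_insert.mp h with h | h
    · exact e1 h
    · exact e2 (Finset.mem_singleton.mp h)
  rw [h1, hset, Finset.card_filter, Finset.sum_insert m2, Finset.sum_insert m3,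
    Finset.sum_singleton]
  refine congrArg₂ (· + ·) ?_ (congrArg₂ (· + ·) ?_ ?_) <;> split_ifs <;> rfl

theorem flip_gen {ω H : Finset (Sym2 V)} (h : ∀ e ∈ ω, ∃ p q, e = s(p, q) ∧ Nbr p q)
    (h' : ∀ e ∈ symmDiff ω H, ∃ p q, e = s(p, q) ∧ Nbr p q)
    (v x y z : V) (hxy : x ≠ y) (hxz : x ≠ z) (hyz : y ≠ z)
    (hN : ∀ q, Nbr v q ∨ Nbr q v → q = x ∨ q = y ∨ q = z)
    (hx : s(v, x) ∈ H) (hy : s(v, y) ∈ H) (hz : s(v, z) ∉ H)
    (hd : deg ω v = 0 ∨ deg ω v = 2) :
    deg (symmDiff ω H) v = 0 ∨ deg (symmDiff ω H) v = 2 := by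
  classical
  rw [deg_three h v x y z hxy hxz hyz hN] at hd
  rw [deg_three h' v x y z hxy hxz hyz hN]
  by_cases ax : s(v, x) ∈ ω <;> by_cases ay : s(v, y) ∈ ω <;> by_cases az : s(v, z) ∈ ω <;>
    simp [ax, ay, az] at hd <;>
    simp [Finset.mem_symmDiff, ax, ay, az, hx, hy, hz]

theorem t_CF : CF := by
  classical
  rintro D a b ω ⟨x, y⟩ h hev hne
  have hv : (x + y) % 2 = 0 := Int.even_iff.mp hev
  obtain ⟨n0, n0a, n0b⟩ := hne 0 (by norm_num)
  obtain ⟨n1, n1a, n1b⟩ := hne 1 (by norm_num)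
  obtain ⟨n2, n2a, n2b⟩ := hne 2 (by norm_num)
  obtain ⟨n3, n3a, n3b⟩ := hne 3 (by norm_num)
  obtain ⟨n4, n4a, n4b⟩ := hne 4 (by norm_num)
  obtain ⟨n5, n5a, n5b⟩ := hne 5 (by norm_num)
  simp only [cor] at n0 n0a n0b n1 n1a n1b n2 n2a n2b n3 n3a n3b n4 n4a n4b n5 n5a n5b
  have hH : ∀ e ∈ hex (x, y), ∃ p q, e = s(p, q) ∧ Nbr p q ∧ p ∈ D ∧ q ∈ D := by
    intro e he
    rcases (mem_hex _ _).mp he with rfl | rfl | rfl | rfl | rfl | rfl
    · exact ⟨_, _, rfl, by simp [Nbr], n0, n1⟩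
    · exact ⟨_, _, rfl, by simp [Nbr] <;> omega, n1, n2⟩
    · exact ⟨_, _, rfl, by simp [Nbr, Int.even_iff] <;> omega, n2, n3⟩
    · exact ⟨_, _, rfl, by simp [Nbr, Int.even_iff] <;> omega, n3, n4⟩
    · exact ⟨_, _, rfl, by simp [Nbr, Int.even_iff], n4, n5⟩
    · exact ⟨_, _, rfl, by simp [Nbr, Int.even_iff] <;> omega, n5, n0⟩
  have hall : ∀ e ∈ symmDiff ω (hex (x, y)), ∃ p q, e = s(p, q) ∧ Nbr p q ∧ p ∈ D ∧ q ∈ D := by
    intro e he
    rcases Finset.mem_symmDiff.mp he with ⟨he, -⟩ | ⟨he, -⟩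
    · exact h.1 e he
    · exact hH e he
  have hω : ∀ e ∈ ω, ∃ p q, e = s(p, q) ∧ Nbr p q := fun e he => by
    obtain ⟨p, q, h1, h2, -⟩ := h.1 e he
    exact ⟨p, q, h1, h2⟩
  have hω' : ∀ e ∈ symmDiff ω (hex (x, y)), ∃ p q, e = s(p, q) ∧ Nbr p q := fun e he => by
    obtain ⟨p, q, h1, h2, -⟩ := hall e he
    exact ⟨p, q, h1, h2⟩
  have hfar : ∀ v : V, v ≠ (x, y) → v ≠ (x + 1, y) → v ≠ (x + 2, y) → v ≠ (x + 2, y + 1) →
      v ≠ (x + 1, y + 1) → v ≠ (x, y + 1) → deg (symmDiff ω (hex (x, y))) v = deg ω v := by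
    intro v v0 v1 v2 v3 v4 v5
    unfold deg
    congr 1
    ext e
    simp only [Finset.mem_filter, Finset.mem_symmDiff]
    constructor
    · rintro ⟨⟨he, -⟩ | ⟨he, -⟩, hve⟩
      · exact ⟨he, hve⟩
      · exfalso
        rcases (mem_hex _ _).mp he with rfl | rfl | rfl | rfl | rfl | rfl <;>
          rcases Sym2.mem_iff.mp hve with h | h <;> simp_all
    · rintro ⟨he, hve⟩
      refine ⟨Or.inl ⟨he, fun he' => ?_⟩, hve⟩
      rcases (mem_hex _ _).mp he' with rfl | rfl | rfl | rfl | rfl | rfl <;>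
        rcases Sym2.mem_iff.mp hve with h | h <;> simp_all
  refine ⟨hall, ⟨?_, ?_⟩, ?_⟩
  · rw [hfar a n0a.symm n1a.symm n2a.symm n3a.symm n4a.symm n5a.symm]
    exact h.2.1.1
  · rw [hfar b n0b.symm n1b.symm n2b.symm n3b.symm n4b.symm n5b.symm]
    exact h.2.1.2
  · intro v va vb
    have hd := h.2.2 v va vb
    by_cases v0 : v = (x, y)
    · subst v0
      exact flip_gen hω hω' (x, y) (x, y + 1) (x + 1, y) (x - 1, y)
        (by simp) (by simp) (by simp; omega)
        (fun q hq => by rcases nb_even hv hq with h | h | h <;> simp [h])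
        (by rw [mem_hex]; simp) (by rw [mem_hex]; simp) (by rw [mem_hex]; simp; try omega) hd
    by_cases v1 : v = (x + 1, y)
    · subst v1
      exact flip_gen hω hω' (x + 1, y) (x, y) (x + 2, y) (x + 1, y - 1)
        (by simp) (by simp) (by simp)
        (fun q hq => by
          rcases nb_odd (by omega) hq with h | h | h <;> simp [h, add_assoc])
        (by rw [mem_hex]; simp) (by rw [mem_hex]; simp) (by rw [mem_hex]; simp; try omega) hd
    by_cases v2 : v = (x + 2, y)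
    · subst v2
      exact flip_gen hω hω' (x + 2, y) (x + 1, y) (x + 2, y + 1) (x + 3, y)
        (by simp) (by simp) (by simp)
        (fun q hq => by
          rcases nb_even (by omega) hq with h | h | h <;> simp [h] <;> omega)
        (by rw [mem_hex]; simp) (by rw [mem_hex]; simp) (by rw [mem_hex]; simp; try omega) hd
    by_cases v3 : v = (x + 2, y + 1)
    · subst v3
      exact flip_gen hω hω' (x + 2, y + 1) (x + 2, y) (x + 1, y + 1) (x + 3, y + 1)
        (by simp) (by simp) (by simp)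
        (fun q hq => by
          rcases nb_odd (by omega) hq with h | h | h <;> simp [h] <;> omega)
        (by rw [mem_hex]; simp) (by rw [mem_hex]; simp) (by rw [mem_hex]; simp; try omega) hd
    by_cases v4 : v = (x + 1, y + 1)
    · subst v4
      exact flip_gen hω hω' (x + 1, y + 1) (x + 2, y + 1) (x, y + 1) (x + 1, y + 2)
        (by simp) (by simp) (by simp)
        (fun q hq => by
          rcases nb_even (by omega) hq with h | h | h <;> simp [h] <;> omega)
        (by rw [mem_hex]; simp) (by rw [mem_hex]; simp) (by rw [mem_hex]; simp; try omega) hd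
    by_cases v5 : v = (x, y + 1)
    · subst v5
      exact flip_gen hω hω' (x, y + 1) (x + 1, y + 1) (x, y) (x - 1, y + 1)
        (by simp) (by simp; omega) (by simp)
        (fun q hq => by
          rcases nb_odd (by omega) hq with h | h | h <;> simp [h])
        (by rw [mem_hex]; simp) (by rw [mem_hex]; simp) (by rw [mem_hex]; simp; try omega) hd
    rw [hfar v v0 v1 v2 v3 v4 v5]
    exact hd

end Pool.Agent.K1H59.ON
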