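import Pool.Agent.K1H73.ON.Stm

/-! Pieces HP and HT of the project ON. -/

set_option autoImplicit false

namespace Pool.Agent.K1H59.ON

open Finset Pool.Agent.K1H73.ON

theorem mem_hex (c : V) (e : Sym2 V) : e ∈ hex c ↔
    e = s((c.1, c.2), (c.1 + 1, c.2)) ∨ e = s((c.1 + 1, c.2), (c.1 + 2, c.2)) ∨
    e = s((c.1 + 2, c.2), (c.1 + 2, c.2 + 1)) ∨ e = s((c.1 + 2, c.2 + 1), (c.1 + 1, c.2 + 1)) ∨
    e = s((c.1 + 1, c.2 + 1), (c.1, c.2 + 1)) ∨ e = s((c.1, c.2 + 1), (c.1, c.2)) := by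
  unfold hex
  rw [Finset.mem_image]
  constructor
  · rintro ⟨i, hi, rfl⟩
    rw [Finset.mem_range] at hi
    interval_cases i
    · exact Or.inl rfl
    · exact Or.inr (Or.inl rfl)
    · exact Or.inr (Or.inr (Or.inl rfl))
    · exact Or.inr (Or.inr (Or.inr (Or.inl rfl)))
    · exact Or.inr (Or.inr (Or.inr (Or.inr (Or.inl rfl))))
    · exact Or.inr (Or.inr (Or.inr (Or.inr (Or.inr rfl))))
  · rintro (h | h | h | h | h | h)
    · exact ⟨0, by simp, h.symm⟩
    · exact ⟨1, by simp, h.symm⟩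
    · exact ⟨2, by simp, h.symm⟩
    · exact ⟨3, by simp, h.symm⟩
    · exact ⟨4, by simp, h.symm⟩
    · exact ⟨5, by simp, h.symm⟩

theorem t_HT : HT := by
  rintro ⟨x, y⟩ i j hi hj -
  rw [mem_hex]
  interval_cases i <;> interval_cases j <;>
    simp only [out, outv, nb, cor, Sym2.eq_iff, Prod.mk.injEq, Prod.mk_add_mk] <;> norm_num <;>
      omega

theorem nbr_cases {p q : V} (h : Nbr p q) : (p.1 + 1 = q.1 ∧ p.2 = q.2) ∨
    (q.1 + 1 = p.1 ∧ p.2 = q.2) ∨ (p.1 = q.1 ∧ p.2 + 1 = q.2 ∧ (p.1 + p.2) % 2 = 0) ∨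
    (p.1 = q.1 ∧ q.2 + 1 = p.2 ∧ (q.1 + q.2) % 2 = 0) := by
  obtain ⟨a, b⟩ := p
  obtain ⟨c, d⟩ := q
  rcases h with h | h | ⟨h, h'⟩ | ⟨h, h'⟩
  · simp only [Prod.mk_sub_mk, Prod.mk.injEq] at h ⊢
    omega
  · simp only [Prod.mk_sub_mk, Prod.mk.injEq] at h ⊢
    omega
  · rw [Int.even_iff] at h'
    simp only [Prod.mk_sub_mk, Prod.mk.injEq] at h h' ⊢
    omega
  · rw [Int.even_iff] at h'
    simp only [Prod.mk_sub_mk, Prod.mk.injEq] at h h' ⊢
    omega

theorem nb_even {x y : ℤ} {q : V} (hv : (x + y) % 2 = 0) (h : Nbr (x, y) q ∨ Nbr q (x, y)) :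
    q = (x + 1, y) ∨ q = (x - 1, y) ∨ q = (x, y + 1) := by
  obtain ⟨c, d⟩ := q
  rcases h with h | h
  · have h1 := nbr_cases h
    simp only [Prod.mk.injEq] at h1 ⊢
    omega
  · have h1 := nbr_cases h
    simp only [Prod.mk.injEq] at h1 ⊢
    omega

theorem nb_odd {x y : ℤ} {q : V} (hv : (x + y) % 2 = 1) (h : Nbr (x, y) q ∨ Nbr q (x, y)) :
    q = (x + 1, y) ∨ q = (x - 1, y) ∨ q = (x, y - 1) := by
  obtain ⟨c, d⟩ := q
  rcases h with h | h
  · have h1 := nbr_cases h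
    simp only [Prod.mk.injEq] at h1 ⊢
    omega
  · have h1 := nbr_cases h
    simp only [Prod.mk.injEq] at h1 ⊢
    omega

theorem rule_gen {ω : Finset (Sym2 V)} {D : Finset V} {a b : V} (h : IsCfg D a b ω)
    (v x y z : V) (hva : v ≠ a) (hvb : v ≠ b) (hxy : x ≠ y) (hxz : x ≠ z) (hyz : y ≠ z)
    (hN : ∀ q, Nbr v q ∨ Nbr q v → q = x ∨ q = y ∨ q = z) :
    (s(v, z) ∈ ω ↔ ¬ (s(v, x) ∈ ω ↔ s(v, y) ∈ ω)) := by
  classical
  have hd := h.2.2 v hva hvb
  have e1 : s(v, x) ≠ s(v, y) := fun h => hxy (Sym2.congr_right.mp h)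
  have e2 : s(v, x) ≠ s(v, z) := fun h => hxz (Sym2.congr_right.mp h)
  have e3 : s(v, y) ≠ s(v, z) := fun h => hyz (Sym2.congr_right.mp h)
  have hset : ω.filter (fun e => v ∈ e) =
      ({s(v, x), s(v, y), s(v, z)} : Finset (Sym2 V)).filter (fun e => e ∈ ω) := by
    ext e
    rw [Finset.mem_filter, Finset.mem_filter, Finset.mem_insert, Finset.mem_insert,
      Finset.mem_singleton]
    constructor
    · rintro ⟨he, hve⟩
      refine ⟨?_, he⟩
      obtain ⟨p, q, rfl, hpq, -, -⟩ := h.1 e he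
      rcases Sym2.mem_iff.mp hve with rfl | rfl
      · rcases hN q (Or.inl hpq) with rfl | rfl | rfl
        · exact Or.inl rfl
        · exact Or.inr (Or.inl rfl)
        · exact Or.inr (Or.inr rfl)
      · rcases hN p (Or.inr hpq) with rfl | rfl | rfl
        · exact Or.inl Sym2.eq_swap
        · exact Or.inr (Or.inl Sym2.eq_swap)
        · exact Or.inr (Or.inr Sym2.eq_swap)
    · rintro ⟨h1, he⟩
      refine ⟨he, ?_⟩
      rcases h1 with rfl | rfl | rfl <;> exact Sym2.mem_mk_left _ _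
  have hdeg : deg ω v = (if s(v, x) ∈ ω then 1 else 0) + ((if s(v, y) ∈ ω then 1 else 0) +
      (if s(v, z) ∈ ω then 1 else 0)) := by
    have h1 : deg ω v = (ω.filter (fun e => v ∈ e)).card := by
      unfold deg
      congr
    rw [h1, hset, Finset.card_filter, Finset.sum_insert, Finset.sum_insert, Finset.sum_singleton]
    · simp [e3]
    · simp [e1, e2]
  rw [hdeg] at hd
  by_cases hx : s(v, x) ∈ ω <;> by_cases hy : s(v, y) ∈ ω <;> by_cases hz : s(v, z) ∈ ω <;>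
    simp [hx, hy, hz] at hd ⊢

theorem even_six {P0 P1 P2 P3 P4 P5 : Prop} {S0 S1 S2 S3 S4 S5 : Prop}
    [Decidable P0] [Decidable P1] [Decidable P2] [Decidable P3] [Decidable P4] [Decidable P5]
    (h0 : P0 ↔ ¬ (S5 ↔ S0)) (h1 : P1 ↔ ¬ (S0 ↔ S1)) (h2 : P2 ↔ ¬ (S1 ↔ S2))
    (h3 : P3 ↔ ¬ (S2 ↔ S3)) (h4 : P4 ↔ ¬ (S3 ↔ S4)) (h5 : P5 ↔ ¬ (S4 ↔ S5)) :
    Even ((if P0 then 1 else 0) + (if P1 then 1 else 0) + (if P2 then 1 else 0) +
      (if P3 then 1 else 0) + (if P4 then 1 else 0) + (if P5 then 1 else 0)) := by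
  by_cases a0 : S0 <;> by_cases a1 : S1 <;> by_cases a2 : S2 <;> by_cases a3 : S3 <;>
    by_cases a4 : S4 <;> by_cases a5 : S5 <;>
    simp only [a0, a1, a2, a3, a4, a5, iff_true, iff_false, not_true, not_false_iff, iff_self]
      at h0 h1 h2 h3 h4 h5 <;>
    simp [h0, h1, h2, h3, h4, h5] <;> decide

theorem t_HP : HP := by
  classical
  rintro D a b ω ⟨x, y⟩ h hev hne
  have hv : (x + y) % 2 = 0 := Int.even_iff.mp hev
  have n0 := hne 0 (by norm_num)
  have n1 := hne 1 (by norm_num)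
  have n2 := hne 2 (by norm_num)
  have n3 := hne 3 (by norm_num)
  have n4 := hne 4 (by norm_num)
  have n5 := hne 5 (by norm_num)
  have r0 : out (x, y) 0 ∈ ω ↔ ¬ (s((x, y + 1), (x, y)) ∈ ω ↔ s((x, y), (x + 1, y)) ∈ ω) := by
    have := rule_gen h (x, y) (x, y + 1) (x + 1, y) (x - 1, y) n0.1 n0.2
      (by simp) (by simp) (by simp; omega)
      (fun q hq => by rcases nb_even hv hq with h | h | h <;> simp [h])
    rw [show out (x, y) 0 = s((x, y), (x - 1, y)) from Sym2.eq_swap, this,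
      show s((x, y + 1), (x, y)) = s((x, y), (x, y + 1)) from Sym2.eq_swap]
  have r1 : out (x, y) 1 ∈ ω ↔ ¬ (s((x, y), (x + 1, y)) ∈ ω ↔ s((x + 1, y), (x + 2, y)) ∈ ω) := by
    have := rule_gen h (x + 1, y) (x, y) (x + 2, y) (x + 1, y - 1) n1.1 n1.2
      (by simp) (by simp) (by simp)
      (fun q hq => by
        rcases nb_odd (by omega) hq with h | h | h <;> simp [h, add_assoc])
    rw [show out (x, y) 1 = s((x + 1, y), (x + 1, y - 1)) from Sym2.eq_swap, this,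
      show s((x, y), (x + 1, y)) = s((x + 1, y), (x, y)) from Sym2.eq_swap]
  have r2 : out (x, y) 2 ∈ ω ↔
      ¬ (s((x + 1, y), (x + 2, y)) ∈ ω ↔ s((x + 2, y), (x + 2, y + 1)) ∈ ω) := by
    have := rule_gen h (x + 2, y) (x + 1, y) (x + 2, y + 1) (x + 3, y) n2.1 n2.2
      (by simp) (by simp) (by simp)
      (fun q hq => by
        rcases nb_even (by omega) hq with h | h | h <;> simp [h] <;> omega)
    rw [show out (x, y) 2 = s((x + 2, y), (x + 3, y)) from Sym2.eq_swap, this,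
      show s((x + 1, y), (x + 2, y)) = s((x + 2, y), (x + 1, y)) from Sym2.eq_swap]
  have r3 : out (x, y) 3 ∈ ω ↔
      ¬ (s((x + 2, y), (x + 2, y + 1)) ∈ ω ↔ s((x + 2, y + 1), (x + 1, y + 1)) ∈ ω) := by
    have := rule_gen h (x + 2, y + 1) (x + 2, y) (x + 1, y + 1) (x + 3, y + 1) n3.1 n3.2
      (by simp) (by simp) (by simp)
      (fun q hq => by
        rcases nb_odd (by omega) hq with h | h | h <;> simp [h] <;> omega)
    rw [show out (x, y) 3 = s((x + 2, y + 1), (x + 3, y + 1)) from Sym2.eq_swap, this,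
      show s((x + 2, y), (x + 2, y + 1)) = s((x + 2, y + 1), (x + 2, y)) from Sym2.eq_swap]
  have r4 : out (x, y) 4 ∈ ω ↔
      ¬ (s((x + 2, y + 1), (x + 1, y + 1)) ∈ ω ↔ s((x + 1, y + 1), (x, y + 1)) ∈ ω) := by
    have := rule_gen h (x + 1, y + 1) (x + 2, y + 1) (x, y + 1) (x + 1, y + 2) n4.1 n4.2
      (by simp) (by simp) (by simp)
      (fun q hq => by
        rcases nb_even (by omega) hq with h | h | h <;> simp [h] <;> omega)
    rw [show out (x, y) 4 = s((x + 1, y + 1), (x + 1, y + 2)) from Sym2.eq_swap, this,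
      show s((x + 2, y + 1), (x + 1, y + 1)) = s((x + 1, y + 1), (x + 2, y + 1)) from Sym2.eq_swap]
  have r5 : out (x, y) 5 ∈ ω ↔
      ¬ (s((x + 1, y + 1), (x, y + 1)) ∈ ω ↔ s((x, y + 1), (x, y)) ∈ ω) := by
    have := rule_gen h (x, y + 1) (x + 1, y + 1) (x, y) (x - 1, y + 1) n5.1 n5.2
      (by simp) (by simp; omega) (by simp)
      (fun q hq => by
        rcases nb_odd (by omega) hq with h | h | h <;> simp [h])
    rw [show out (x, y) 5 = s((x, y + 1), (x - 1, y + 1)) from Sym2.eq_swap, this,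
      show s((x + 1, y + 1), (x, y + 1)) = s((x, y + 1), (x + 1, y + 1)) from Sym2.eq_swap]
  have hset : {j : ℕ | j < 6 ∧ out (x, y) j ∈ ω} =
      (((Finset.range 6).filter (fun j => out (x, y) j ∈ ω) : Finset ℕ) : Set ℕ) := by
    ext j
    simp
  rw [hset, Set.ncard_coe_finset, Finset.card_filter, Finset.sum_range_succ,
    Finset.sum_range_succ, Finset.sum_range_succ, Finset.sum_range_succ, Finset.sum_range_succ,
    Finset.sum_range_one]
  exact even_six r0 r1 r2 r3 r4 r5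

end Pool.Agent.K1H59.ON
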